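import Pool.Agent.Q34.ZS.Robust
import Pool.Agent.Y771.DJ.AA
import Pool.Agent.Y854.GM.Cum
import Pool.Agent.Y854.GM.Win

/-!
# All short intervals near the multiples of a sequence

The law `Law F X A`: for `0 < η < 1`, `ε > 0` there are at most `C X ^ (1 - δ)` integers `m ≤ X` such that some interval
`(t, t + H]`, `t ∈ [m, m + 1)`, `t ^ η ≤ H ≤ t / 16`, contains less than `(A η - ε) N` of the objects counted by `X`.
It is proved for the simple critical zeros and for the distinct zeros of all primitive Dirichlet L-functions.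
-/

set_option autoImplicit false

open Complex Filter Topology Set MeasureTheory

namespace Pool.Agent.Q34.ZS

open H370

open Classical in
/-- few exceptional integers, for all parameters -/
def Law (F : ℂ → ℂ) (X : ℝ → ℝ → ℝ) (A : ℝ → ℝ) : Prop :=
  ∀ η ε : ℝ, 0 < η → η < 1 → 0 < ε → ∃ δ : ℝ, 0 < δ ∧ δ < 1 ∧ ∃ C : ℝ, ∀ Y : ℕ,
    (((Finset.Ioc 0 Y).filter (fun m => m ∈ Bad F X (A η - ε) η)).card : ℝ) ≤ C * (Y : ℝ) ^ (1 - δ)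

theorem law_of_almost {F : ℂ → ℂ} (hF : GoodL F) {X : ℝ → ℝ → ℝ} (hX0 : ∀ a b, 0 ≤ X a b)
    (hmono : ∀ a b c d : ℝ, 0 < a → a ≤ b → c ≤ d → X b c ≤ X a d) {A : ℝ → ℝ}
    (hA : ∀ η : ℝ, 0 < η → η < 1 → ContinuousAt A η)
    (h : ∀ η ε : ℝ, 0 < η → η < 1 → 0 < ε → ∃ δ : ℝ, 0 < δ ∧ ∃ T₀ : ℝ, ∀ T : ℝ, T₀ ≤ T → ∀ H : ℝ,
      T ^ η ≤ H → H ≤ T / 8 →
      volume {t : ℝ | T ≤ t ∧ t ≤ 2 * T ∧ ¬ ((A η - ε) * (NN F t (t + H) : ℝ) ≤ X t (t + H))} ≤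
        ENNReal.ofReal (T ^ (1 - δ))) : Law F X A := by
  intro η ε hη hη1 hε
  have h1 : ∀ᶠ x : ℝ in 𝓝[<] η, (0 < x ∧ x < η) ∧ A η - ε / 3 < A x := by
    have e1 : ∀ᶠ x : ℝ in 𝓝[<] η, 0 < x := nhdsWithin_le_nhds (lt_mem_nhds hη)
    have e2 : ∀ᶠ x : ℝ in 𝓝[<] η, x < η := self_mem_nhdsWithin
    have e3 : ∀ᶠ x : ℝ in 𝓝[<] η, A η - ε / 3 < A x :=
      nhdsWithin_le_nhds ((hA η hη hη1).eventually (lt_mem_nhds (by linarith)))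
    exact (e1.and e2).and e3
  obtain ⟨x, ⟨hx0, hx1⟩, hx2⟩ := h1.exists
  obtain ⟨δ, hδ, N₀, hN₀⟩ := robust hF hX0 hmono (c := A x) (η := x) (η' := η) (ε := ε / 3) hx0 hx1
    (by positivity) (h x (ε / 3) hx0 (by linarith) (by positivity))
  obtain ⟨δ', hδ', C, hC⟩ := Pool.Agent.Y854.GM.cum_pow _ hδ N₀ hN₀
  have hsub : Bad F X (A η - ε) η ⊆ Bad F X (A x - 2 * (ε / 3)) η := by
    intro m hm hg
    apply hm
    intro t h1 h2 H h3 h4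
    refine le_trans ?_ (hg t h1 h2 H h3 h4)
    apply mul_le_mul_of_nonneg_right _ (Nat.cast_nonneg _)
    linarith
  refine ⟨min δ' (1 / 2), by positivity, by linarith [min_le_right δ' (1 / 2)], |C|, fun Y => ?_⟩
  rcases Nat.eq_zero_or_pos Y with rfl | hY
  · simp only [Finset.Ioc_self, Finset.filter_empty, Finset.card_empty, Nat.cast_zero]
    positivity
  have hY1 : (1 : ℝ) ≤ Y := by exact_mod_cast hY
  classical
  calc (((Finset.Ioc 0 Y).filter (fun m => m ∈ Bad F X (A η - ε) η)).card : ℝ)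
      ≤ (((Finset.Ioc 0 Y).filter (fun m => m ∈ Bad F X (A x - 2 * (ε / 3)) η)).card : ℝ) := by
        refine Nat.cast_le.2 (Finset.card_le_card fun m hm => ?_)
        rw [Finset.mem_filter] at hm ⊢
        exact ⟨hm.1, hsub hm.2⟩
    _ ≤ C * (Y : ℝ) ^ (1 - δ') := hC Y
    _ ≤ |C| * (Y : ℝ) ^ (1 - min δ' (1 / 2)) := by
        apply mul_le_mul (le_abs_self C) _ (by positivity) (abs_nonneg _)
        apply Real.rpow_le_rpow_of_exponent_le hY1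
        linarith [min_le_left δ' (1 / 2)]

/-- windows around the members of `α v` -/
theorem Law.windows {F : ℂ → ℂ} {X : ℝ → ℝ → ℝ} {A : ℝ → ℝ} (hL : Law F X A) {η ε : ℝ} (hη : 0 < η) (hη1 : η < 1)
    (hε : 0 < ε) : ∃ δ : ℝ, 0 < δ ∧ δ < 1 ∧ ∀ (v : ℕ → ℝ) (τ θ : ℝ), (∀ n, 1 ≤ v n) → 0 ≤ τ →
      Pool.Agent.Y854.GM.ExpLe v τ → θ < 1 →
      ∃ E : Set ℝ, dimH E ≤ ENNReal.ofReal ((1 - δ + τ) / (1 - θ)) ∧ ∀ α : ℝ, 0 < α → α ∉ E →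
        ∃ n₀ : ℕ, ∀ n : ℕ, n₀ ≤ n → ∀ m : ℕ, |(m : ℝ) - α * v n| ≤ (v n) ^ θ → GoodAt F X (A η - ε) η m := by
  obtain ⟨δ, hδ, hδ1, C, hC⟩ := hL η ε hη hη1 hε
  refine ⟨δ, hδ, hδ1, fun v τ θ hv hτ hE hθ => ?_⟩
  obtain ⟨E, hEd, hE2⟩ := Pool.Agent.Y854.GM.win_nat (Bad F X (A η - ε) η) hv hτ hE (s := 1 - δ)
    (by linarith) hθ (fun ζ hζ => ⟨|C|, fun Y hY => by
      have hY1 : (1 : ℝ) ≤ Y := by exact_mod_cast hY
      refine (hC Y).trans ?_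
      apply mul_le_mul (le_abs_self C) _ (by positivity) (abs_nonneg _)
      exact Real.rpow_le_rpow_of_exponent_le hY1 (by linarith)⟩)
  refine ⟨E, hEd, fun α hα hαE => ?_⟩
  obtain ⟨n₀, hn⟩ := hE2 α hα hαE
  refine ⟨n₀, fun n hn1 m hm => ?_⟩
  have h3 := (hn n hn1 m hm).2
  by_contra hcon
  exact h3 hcon

open Classical in
/-- a countable family of laws, along `⌊α n ^ κ⌋` -/
theorem Law.pow {κ : ℝ} (hκ : 1 < κ) {ι : Type} [Countable ι] (F : ι → ℂ → ℂ) (X : ι → ℝ → ℝ → ℝ) (A : ι → ℝ → ℝ)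
    (hL : ∀ i, Law (F i) (X i) (A i)) :
    ∃ E : Set ℝ, dimH E < 1 ∧ ∀ α : ℝ, 0 < α → α ∉ E → ∀ (i : ι) (η ε : ℚ), 0 < η → η < 1 → 0 < ε →
      ∃ δ : ℝ, 0 < δ ∧ δ < 1 ∧ ∃ N₀ : ℕ, ∀ N : ℕ, N₀ ≤ N →
        (((Finset.Icc 1 N).filter (fun n : ℕ =>
          ¬ GoodAt (F i) (X i) (A i η - ε) η ⌊α * (n : ℝ) ^ κ⌋₊)).card : ℝ) ≤ (N : ℝ) ^ (1 - δ) := by
  obtain ⟨E, hE, h⟩ := Pool.Agent.Y854.GM.sets_pow κ hκ
    (fun t : ι × ℚ × ℚ => Bad (F t.1) (X t.1) (A t.1 t.2.1 - t.2.2) t.2.1)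
  refine ⟨E, hE, fun α hα hαE i η ε hη hη1 hε => ?_⟩
  have hηR : (0 : ℝ) < (η : ℝ) := by exact_mod_cast hη
  have hη1R : ((η : ℚ) : ℝ) < 1 := by exact_mod_cast hη1
  have hεR : (0 : ℝ) < (ε : ℝ) := by exact_mod_cast hε
  obtain ⟨δ₀, hδ₀, _, C, hC⟩ := hL i η ε hηR hη1R hεR
  obtain ⟨δ, hδ, hδ1, N₀, hN⟩ := h α hα hαE (i, η, ε) δ₀ C hδ₀ ⟨1, fun Y _ => hC Y⟩
  refine ⟨δ, hδ, hδ1, N₀, fun N hNN => le_trans ?_ (hN N hNN)⟩
  refine Nat.cast_le.2 (Finset.card_le_card fun n hn => ?_)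
  rw [Finset.mem_filter] at hn ⊢
  exact ⟨hn.1, hn.2⟩

/-! ### The functionals -/

lemma Ns_mono {F : ℂ → ℂ} (hF : GoodL F) (a b c d : ℝ) (ha : 0 < a) (hab : a ≤ b) (hcd : c ≤ d) :
    (Ns F b c : ℝ) ≤ (Ns F a d : ℝ) := by
  apply Nat.cast_le.2
  apply Set.ncard_le_ncard _ ((zset_finite' hF a d ha).subset fun s hs => hs.1)
  rintro s ⟨⟨h1, h2, h3, h4, h5⟩, h6, h7⟩
  exact ⟨⟨h1, h2, by linarith, by linarith, h5⟩, h6, h7⟩

lemma Nd_mono {F : ℂ → ℂ} (hF : GoodL F) (a b c d : ℝ) (ha : 0 < a) (hab : a ≤ b) (hcd : c ≤ d) :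
    (Nd F b c : ℝ) ≤ (Nd F a d : ℝ) := by
  apply Nat.cast_le.2
  apply Set.ncard_le_ncard _ (zset_finite' hF a d ha)
  rintro s ⟨h1, h2, h3, h4, h5⟩
  exact ⟨h1, h2, by linarith, by linarith, h5⟩

lemma cc_cont' {η : ℝ} (hη : 0 < η) (hη1 : η < 1) : ContinuousAt (fun x : ℝ => H295SI.cc ((1 + x) / 2)) η := by
  have h := H370.AS.cc_cont ((1 + η) / 2) (by linarith) (by linarith)
  exact ContinuousAt.comp (f := fun x : ℝ => (1 + x) / 2) (g := H295SI.cc) h (by fun_prop)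

/-- simple critical zeros -/
theorem law_simple {F : ℂ → ℂ} (hF : GoodL F) (hA : Pool.Agent.TH822.AA.Almost F) :
    Law F (fun a b => (Ns F a b : ℝ)) (fun η => 2 - H295SI.cc ((1 + η) / 2)) := by
  refine law_of_almost hF (fun a b => Nat.cast_nonneg _) (Ns_mono hF)
    (fun η h0 h1 => continuousAt_const.sub (cc_cont' h0 h1)) (fun η ε h0 h1 hε => ?_)
  obtain ⟨δ, hδ, T0, hT1, hT0⟩ := hA η ((1 + η) / 2) ε h0 h1 (by linarith) (by linarith) hε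
  refine ⟨δ, hδ, T0, fun T hT H hH1 hH2 => (measure_mono ?_).trans (hT0 T hT H hH1 hH2)⟩
  rintro t ⟨ht1, ht2, ht3⟩
  refine ⟨⟨ht1, ht2⟩, fun hcon => ht3 ?_⟩
  have h4 := hcon.1
  have h5 : (0 : ℝ) ≤ 2 * W69DZ.EX F t (t + H) := by positivity
  linarith

/-- distinct zeros -/
theorem law_distinct (j : ℕ) (hj : 1 ≤ j) {F : ℂ → ℂ} (hF : GoodL F)
    (hB : ∀ τ : ℝ, 0 < τ → τ ≤ 1 → Pool.Agent.TH822.DZ.BZr F τ) :
    Law F (fun a b => (Nd F a b : ℝ)) (fun η => (2 * j + 1 - H295SI.cc ((1 + η) / 2)) / (j * (j + 1))) := by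
  have hj1 : (1 : ℝ) ≤ j := by exact_mod_cast hj
  have hjj : 0 < (j : ℝ) * (j + 1) := by positivity
  refine law_of_almost hF (fun a b => Nat.cast_nonneg _) (Nd_mono hF)
    (fun η h0 h1 => (continuousAt_const.sub (cc_cont' h0 h1)).div_const _) (fun η ε h0 h1 hε => ?_)
  obtain ⟨δ, hδ, T0, hT1, hT0⟩ := Pool.Agent.Y771.DJ.almost_j j hj hF hB η ((1 + η) / 2) ε h0 h1 (by linarith)
    (by linarith) hε
  refine ⟨δ, hδ, T0, fun T hT H hH1 hH2 => (measure_mono ?_).trans (hT0 T hT H hH1 hH2)⟩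
  rintro t ⟨ht1, ht2, ht3⟩
  refine ⟨⟨ht1, ht2⟩, fun hcon => ht3 ?_⟩
  have h5 : 0 ≤ Pool.Agent.Y771.DJ.SJ j F t (t + H) := by
    unfold Pool.Agent.Y771.DJ.SJ
    positivity
  have hN0 : (0 : ℝ) ≤ NN F t (t + H) := Nat.cast_nonneg _
  have h6 : (2 * j + 1 - H295SI.cc ((1 + η) / 2) - ε) * (NN F t (t + H) : ℝ) ≤
      (j : ℝ) * (j + 1) * (Nd F t (t + H) : ℝ) := by linarith
  refine le_of_mul_le_mul_left (le_trans ?_ h6) hjj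
  have e1 : (j : ℝ) * (j + 1) * (((2 * j + 1 - H295SI.cc ((1 + η) / 2)) / (j * (j + 1)) - ε) *
      (NN F t (t + H) : ℝ)) = (2 * j + 1 - H295SI.cc ((1 + η) / 2) - (j : ℝ) * (j + 1) * ε) *
      (NN F t (t + H) : ℝ) := by
    field_simp
  rw [e1]
  apply mul_le_mul_of_nonneg_right _ hN0
  have h7 : 1 ≤ (j : ℝ) * (j + 1) := by nlinarith
  have h8 := mul_le_mul_of_nonneg_right h7 hε.le
  linarith

end Pool.Agent.Q34.ZS
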