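import Pool.Agent.H965R2.SI.CountShort
import Pool.Agent.TH822.AA.Main

/-!
# From almost all points to all points outside few unit intervals

Let `X a b` be a function of intervals that grows with the interval, for instance the number of simple zeros or of
distinct zeros of an L-function. If for every length `H` the inequality `X ≥ (c - ε) N` holds in the interval `(t, t + H]`
for all `t ∈ [T, 2T]` outside a set of measure `T ^ (1 - δ)`, then there are at most `C X ^ (1 - δ')` integers `m ≤ X`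
such that for some real `t ∈ [m, m + 1)` and some `H ∈ [t ^ η', t / 16]` the inequality fails in `(t, t + H]`.
-/

set_option autoImplicit false

open Complex Filter Topology Set MeasureTheory

namespace Pool.Agent.Q34.ZS

open H370

/-- the short count of zeros as an asymptotic formula -/
theorem count_asymp {F : ℂ → ℂ} (hF : GoodL F) {η e : ℝ} (hη : 0 < η) (he : 0 < e) :
    ∃ T1 : ℝ, 10 ≤ T1 ∧ ∀ t : ℝ, T1 ≤ t → ∀ H : ℝ, t ^ η ≤ H → H ≤ t →
      (1 - e) * (H * Real.log t / (2 * Real.pi)) ≤ (NN F t (t + H) : ℝ) ∧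
      (NN F t (t + H) : ℝ) ≤ (1 + e) * (H * Real.log t / (2 * Real.pi)) := by
  obtain ⟨C, hC, hcnt⟩ := H965SI.countShort F hF
  have hpi := Real.pi_pos
  -- the error
  have h1 : Tendsto (fun t : ℝ => C * (1 / Real.log t + Real.log t / t ^ η) * (2 * Real.pi)) atTop (𝓝 0) := by
    have e1 : Tendsto (fun t : ℝ => 1 / Real.log t) atTop (𝓝 0) := by
      simp only [one_div]
      exact Real.tendsto_log_atTop.inv_tendsto_atTop
    have e2 : Tendsto (fun t : ℝ => Real.log t / t ^ η) atTop (𝓝 0) :=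
      (isLittleO_log_rpow_atTop hη).tendsto_div_nhds_zero
    have e3 := ((e1.add e2).const_mul C).mul_const (2 * Real.pi)
    simpa using e3
  have h2 : ∀ᶠ t : ℝ in atTop, C * (1 / Real.log t + Real.log t / t ^ η) * (2 * Real.pi) < e :=
    h1.eventually (gt_mem_nhds he)
  have h3 : ∀ᶠ t : ℝ in atTop, (3 : ℝ) ≤ t ^ η := (tendsto_rpow_atTop hη).eventually_ge_atTop 3
  obtain ⟨T2, hT2⟩ := (h2.and h3).exists_forall_of_atTop
  refine ⟨max T2 10, le_max_right _ _, fun t ht H hH1 hH2 => ?_⟩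
  have ht10 : 10 ≤ t := (le_max_right _ _).trans ht
  obtain ⟨h4, h5⟩ := hT2 t ((le_max_left _ _).trans ht)
  have hL : 0 < Real.log t := Real.log_pos (by linarith)
  have hH3 : 3 ≤ H := h5.trans hH1
  have hH0 : 0 < H := by linarith
  have htη : 0 < t ^ η := by linarith
  have h6 := (hcnt t ht10 H hH3 hH2 t (t + H) le_rfl (by linarith) (by linarith) le_rfl).1
  have h7 : C * (H + Real.log t ^ 2) ≤ e * (H * Real.log t / (2 * Real.pi)) := by
    have h8 : C * (H + Real.log t ^ 2) ≤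
        C * (1 / Real.log t + Real.log t / t ^ η) * (2 * Real.pi) * (H * Real.log t / (2 * Real.pi)) := by
      have h9 : C * (1 / Real.log t + Real.log t / t ^ η) * (2 * Real.pi) * (H * Real.log t / (2 * Real.pi)) =
          C * (H + Real.log t ^ 2 * (H / t ^ η)) := by
        field_simp
      rw [h9]
      apply mul_le_mul_of_nonneg_left _ hC.le
      have h10 : 1 ≤ H / t ^ η := by rw [one_le_div htη]; exact hH1
      have h11 : Real.log t ^ 2 ≤ Real.log t ^ 2 * (H / t ^ η) :=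
        le_mul_of_one_le_right (by positivity) h10
      linarith
    refine h8.trans ?_
    exact mul_le_mul_of_nonneg_right h4.le (by positivity)
  rw [abs_le] at h6
  constructor <;> linarith [h6.1, h6.2]

/-- the inequality holds in all intervals which start in `[m, m + 1)` -/
def GoodAt (F : ℂ → ℂ) (X : ℝ → ℝ → ℝ) (c η : ℝ) (m : ℕ) : Prop :=
  ∀ t : ℝ, (m : ℝ) ≤ t → t < m + 1 → ∀ H : ℝ, t ^ η ≤ H → H ≤ t / 16 →
    c * (NN F t (t + H) : ℝ) ≤ X t (t + H)

/-- the exceptional integers -/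
def Bad (F : ℂ → ℂ) (X : ℝ → ℝ → ℝ) (c η : ℝ) : Set ℕ := {m : ℕ | ¬ GoodAt F X c η m}

/-- the numbers `(1 + ρ) ^ k` in the interval `[A, B]`: for `A (1 + ρ) ≤ y ≤ B` one of them is in `[y / (1 + ρ), y]` -/
lemma grid {ρ A B y : ℝ} (hρ : 0 < ρ) (hA : 1 ≤ A) (hy1 : A * (1 + ρ) ≤ y) (hy2 : y ≤ B) :
    ∃ k : ℕ, A ≤ (1 + ρ) ^ k ∧ (1 + ρ) ^ k ≤ B ∧ (1 + ρ) ^ k ≤ y ∧ y / (1 + ρ) ≤ (1 + ρ) ^ k ∧
      (k : ℝ) ≤ Real.log B / Real.log (1 + ρ) := by
  have hy0 : 1 ≤ y := by nlinarith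
  have h1 : 1 < 1 + ρ := by linarith
  obtain ⟨k, hk1, hk2⟩ := exists_nat_pow_near hy0 h1
  have h2 : y / (1 + ρ) ≤ (1 + ρ) ^ k := by
    rw [div_le_iff₀ (by linarith), ← pow_succ]
    exact hk2.le
  have hlog : 0 < Real.log (1 + ρ) := Real.log_pos h1
  refine ⟨k, ?_, hk1.trans hy2, hk1, h2, ?_⟩
  · refine le_trans ?_ h2
    rw [le_div_iff₀ (by linarith)]
    exact hy1
  · rw [le_div_iff₀ hlog]
    have h3 := Real.log_le_log (by positivity) (hk1.trans hy2)
    rw [Real.log_pow] at h3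
    exact h3


/-- the inequality at one point `t₀` to the right of `t` -/
lemma transfer {X : ℝ → ℝ → ℝ}
    (hmono : ∀ a b c d : ℝ, 0 < a → a ≤ b → c ≤ d → X b c ≤ X a d) {c ε e t t0 H h Np Nt : ℝ}
    (hε : 0 < ε) (hcε : 0 < c - 2 * ε) (he : 0 < e) (he2 : e ≤ 1 / 2) (hec : 3 * e * c ≤ ε) (ht : 1 < t)
    (htt : t ≤ t0) (htH : t0 + h ≤ t + H) (hH : 0 < H) (hh : (1 - e) * H ≤ h)
    (hN0 : (1 - e) * (h * Real.log t0 / (2 * Real.pi)) ≤ Np)
    (hN1 : Nt ≤ (1 + e) * (H * Real.log t / (2 * Real.pi)))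
    (hX : (c - ε) * Np ≤ X t0 (t0 + h)) :
    (c - 2 * ε) * Nt ≤ X t (t + H) := by
  have hpi := Real.pi_pos
  have hL : 0 < Real.log t := Real.log_pos ht
  have hL0 : Real.log t ≤ Real.log t0 := Real.log_le_log (by linarith) htt
  have h1 := hmono t t0 (t0 + h) (t + H) (by linarith) htt htH
  refine le_trans ?_ (hX.trans h1)
  set M : ℝ := H * Real.log t / (2 * Real.pi) with hM
  have hM0 : 0 < M := by positivity
  have h2 : (1 - e) * M ≤ h * Real.log t0 / (2 * Real.pi) := by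
    rw [hM, ← mul_div_assoc]
    apply div_le_div_of_nonneg_right _ (by positivity)
    calc (1 - e) * (H * Real.log t) = ((1 - e) * H) * Real.log t := by ring
      _ ≤ h * Real.log t0 := by
          apply mul_le_mul hh hL0 hL.le
          have : 0 ≤ (1 - e) * H := mul_nonneg (by linarith) hH.le
          linarith
  have h3 : (1 - e) * ((1 - e) * M) ≤ Np :=
    (mul_le_mul_of_nonneg_left h2 (by linarith)).trans hN0
  calc (c - 2 * ε) * Nt ≤ (c - 2 * ε) * ((1 + e) * M) := mul_le_mul_of_nonneg_left hN1 hcε.le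
    _ ≤ (c - ε) * ((1 - e) * ((1 - e) * M)) := by
        have h4 : (c - 2 * ε) * (1 + e) ≤ (c - ε) * ((1 - e) * (1 - e)) := by
          have h5 : 0 ≤ (c - ε) * (e * e) := mul_nonneg (by linarith) (by positivity)
          nlinarith
        calc (c - 2 * ε) * ((1 + e) * M) = (c - 2 * ε) * (1 + e) * M := by ring
          _ ≤ (c - ε) * ((1 - e) * (1 - e)) * M := mul_le_mul_of_nonneg_right h4 hM0.le
          _ = (c - ε) * ((1 - e) * ((1 - e) * M)) := by ring
    _ ≤ (c - ε) * Np := mul_le_mul_of_nonneg_left h3 (by linarith)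

open Classical in
/-- **From the measure of the exceptional points to the number of exceptional integers.** -/
theorem robust {F : ℂ → ℂ} (hF : GoodL F) {X : ℝ → ℝ → ℝ} (hX0 : ∀ a b, 0 ≤ X a b)
    (hmono : ∀ a b c d : ℝ, 0 < a → a ≤ b → c ≤ d → X b c ≤ X a d) {c η η' ε : ℝ} (hη : 0 < η)
    (hηη : η < η') (hε : 0 < ε)
    (h : ∃ δ : ℝ, 0 < δ ∧ ∃ T₀ : ℝ, ∀ T : ℝ, T₀ ≤ T → ∀ H : ℝ, T ^ η ≤ H → H ≤ T / 8 →
      volume {t : ℝ | T ≤ t ∧ t ≤ 2 * T ∧ ¬ ((c - ε) * (NN F t (t + H) : ℝ) ≤ X t (t + H))} ≤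
        ENNReal.ofReal (T ^ (1 - δ))) :
    ∃ δ : ℝ, 0 < δ ∧ ∃ N₀ : ℕ, ∀ N : ℕ, N₀ ≤ N →
      (((Finset.Ioc N (2 * N)).filter (fun m => m ∈ Bad F X (c - 2 * ε) η')).card : ℝ) ≤
        (N : ℝ) ^ (1 - δ) := by
  rcases le_or_gt (c - 2 * ε) 0 with hc0 | hc0
  · refine ⟨1, one_pos, 1, fun N hN => ?_⟩
    have : (Finset.Ioc N (2 * N)).filter (fun m => m ∈ Bad F X (c - 2 * ε) η') = ∅ := by
      apply Finset.filter_eq_empty_iff.2
      intro m _ hm
      apply hm
      intro t _ _ H _ _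
      have h1 : (0 : ℝ) ≤ NN F t (t + H) := Nat.cast_nonneg _
      have h2 : (c - 2 * ε) * (NN F t (t + H) : ℝ) ≤ 0 := mul_nonpos_of_nonpos_of_nonneg hc0 h1
      exact h2.trans (hX0 _ _)
    rw [this]
    simp
  have hc : 0 < c := by linarith
  obtain ⟨δ₀, hδ₀, T₀, hT₀⟩ := h
  set δ : ℝ := min δ₀ 1 with hδd
  have hδ : 0 < δ := lt_min hδ₀ one_pos
  have hδ1 : δ ≤ 1 := min_le_right _ _
  set e : ℝ := min (1 / 2) (ε / (3 * c)) with he
  have he0 : 0 < e := by positivity
  have he2 : e ≤ 1 / 2 := min_le_left _ _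
  have hec : 3 * e * c ≤ ε := by
    have h1 : e ≤ ε / (3 * c) := min_le_right _ _
    rw [le_div_iff₀ (by positivity)] at h1
    linarith
  set ρ : ℝ := e / 2 with hρ
  have hρ0 : 0 < ρ := by positivity
  obtain ⟨T1, hT10, hT1⟩ := count_asymp hF (show (0 : ℝ) < η / 2 by positivity) he0
  have hlogρ : 0 < Real.log (1 + ρ) := Real.log_pos (by linarith)
  -- large `N`
  have a1 : ∀ᶠ x : ℝ in atTop, x ^ η * (1 + ρ) + 2 ≤ x ^ η' := by
    have e1 : Tendsto (fun x : ℝ => x ^ (η' - η)) atTop atTop := tendsto_rpow_atTop (by linarith)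
    filter_upwards [e1.eventually_ge_atTop (1 + ρ + 2), eventually_ge_atTop (1 : ℝ)] with x h1 h2
    have h3 : 1 ≤ x ^ η := Real.one_le_rpow h2 hη.le
    have h4 : x ^ η' = x ^ η * x ^ (η' - η) := by
      rw [← Real.rpow_add (by linarith)]
      congr 1
      ring
    rw [h4]
    nlinarith
  have a2 : ∀ᶠ x : ℝ in atTop, 4 / e + 2 ≤ x ^ η' := (tendsto_rpow_atTop (by linarith)).eventually_ge_atTop _
  have a3 : ∀ᶠ x : ℝ in atTop, (Real.log x / Real.log (1 + ρ) + 1) + 3 ≤ x ^ (δ / 2) := by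
    have e1 : Tendsto (fun x : ℝ => Real.log x / x ^ (δ / 2)) atTop (𝓝 0) :=
      (isLittleO_log_rpow_atTop (by positivity)).tendsto_div_nhds_zero
    have e2 : Tendsto (fun x : ℝ => Real.log x / x ^ (δ / 2) / Real.log (1 + ρ)) atTop (𝓝 0) := by
      simpa using e1.div_const (Real.log (1 + ρ))
    filter_upwards [e2.eventually (gt_mem_nhds (show (0 : ℝ) < 1 / 2 by norm_num)),
      (tendsto_rpow_atTop (show (0 : ℝ) < δ / 2 by positivity)).eventually_ge_atTop 8,
      eventually_ge_atTop (1 : ℝ)] with x h1 h2 h3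
    have h4 : 0 < x ^ (δ / 2) := by positivity
    rw [div_div, mul_comm, ← div_div, div_lt_iff₀ h4] at h1
    linarith
  obtain ⟨x0, hx0⟩ := (a1.and (a2.and a3)).exists_forall_of_atTop
  refine ⟨δ / 2, by positivity, ⌈max (max x0 T₀) (max T1 100)⌉₊, fun N hN => ?_⟩
  have hNx : max (max x0 T₀) (max T1 100) ≤ (N : ℝ) := Nat.ceil_le.1 hN
  have hN1 : x0 ≤ (N : ℝ) := (le_max_left _ _).trans ((le_max_left _ _).trans hNx)
  have hN2 : T₀ ≤ (N : ℝ) := (le_max_right _ _).trans ((le_max_left _ _).trans hNx)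
  have hN3 : T1 ≤ (N : ℝ) := (le_max_left _ _).trans ((le_max_right _ _).trans hNx)
  have hN4 : (100 : ℝ) ≤ (N : ℝ) := (le_max_right _ _).trans ((le_max_right _ _).trans hNx)
  obtain ⟨b1, b2, b3⟩ := hx0 N hN1
  have hN0 : (0 : ℝ) < N := by linarith
  have hNlog : 0 < Real.log N := Real.log_pos (by linarith)
  set K : ℕ := ⌊Real.log N / Real.log (1 + ρ)⌋₊ + 1 with hK
  have hKle : (K : ℝ) ≤ Real.log N / Real.log (1 + ρ) + 1 := by
    rw [hK]
    push_cast
    have := Nat.floor_le (show 0 ≤ Real.log N / Real.log (1 + ρ) by positivity)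
    linarith
  set B : ℕ → Set ℝ := fun k => {t : ℝ | ((N : ℝ) ^ η ≤ (1 + ρ) ^ k ∧ (1 + ρ) ^ k ≤ (N : ℝ) / 8) ∧ (N : ℝ) ≤ t ∧
    t ≤ 2 * N ∧ ¬ ((c - ε) * (NN F t (t + (1 + ρ) ^ k) : ℝ) ≤ X t (t + (1 + ρ) ^ k))} with hB
  have hBvol : ∀ k, volume (B k) ≤ ENNReal.ofReal ((N : ℝ) ^ (1 - δ)) := by
    intro k
    by_cases hk : (N : ℝ) ^ η ≤ (1 + ρ) ^ k ∧ (1 + ρ) ^ k ≤ (N : ℝ) / 8
    · refine (measure_mono ?_).trans ((hT₀ N hN2 _ hk.1 hk.2).trans ?_)
      · rintro t ⟨_, h1, h2, h3⟩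
        exact ⟨h1, h2, h3⟩
      · apply ENNReal.ofReal_le_ofReal
        apply Real.rpow_le_rpow_of_exponent_le (by linarith)
        have := min_le_left δ₀ 1
        linarith
    · have : B k = ∅ := by
        apply Set.eq_empty_of_forall_notMem
        rintro t ⟨h1, _⟩
        exact hk h1
      rw [this, measure_empty]
      exact bot_le
  set S : Finset ℕ := (Finset.Ioc N (2 * N - 3)).filter (fun m => ¬ GoodAt F X (c - 2 * ε) η' m) with hS
  have hsub : ∀ m ∈ S, Set.Ico ((m : ℝ) + 1) (m + 2) ⊆ ⋃ k ∈ Finset.range K, B k := by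
    intro m hm t0 ht0
    rw [hS, Finset.mem_filter, Finset.mem_Ioc] at hm
    obtain ⟨⟨hm1, hm2⟩, hm3⟩ := hm
    have hm1' : (N : ℝ) ≤ m := by exact_mod_cast hm1.le
    have hm2' : (m : ℝ) + 3 ≤ 2 * N := by
      have : m + 3 ≤ 2 * N := by
        have : 100 ≤ N := by exact_mod_cast hN4
        omega
      exact_mod_cast this
    unfold GoodAt at hm3
    push Not at hm3
    obtain ⟨t, ht1, ht2, H, hH1, hH2, hH3⟩ := hm3
    have ht0' : 1 < t := by linarith
    have hNt : (N : ℝ) ≤ t := hm1'.trans ht1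
    have hHN : (N : ℝ) ^ η' ≤ H := (Real.rpow_le_rpow hN0.le hNt (by linarith)).trans hH1
    have hHN2 : H - 2 ≤ (N : ℝ) / 8 := by linarith only [hH2, ht2, hm2']
    have hHN3 : (N : ℝ) ^ η * (1 + ρ) ≤ H - 2 := by linarith only [b1, hHN]
    obtain ⟨k, k1, k2, k3, k4, k5⟩ := grid hρ0 (A := (N : ℝ) ^ η) (B := (N : ℝ) / 8) (y := H - 2)
      (Real.one_le_rpow (by linarith only [hN4]) hη.le) hHN3 hHN2
    have hk : k ∈ Finset.range K := by
      rw [Finset.mem_range, hK, Nat.lt_add_one_iff]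
      apply Nat.le_floor
      refine k5.trans ?_
      apply div_le_div_of_nonneg_right _ hlogρ.le
      exact Real.log_le_log (by positivity) (by linarith)
    rw [Set.mem_iUnion₂]
    have q1 : (m : ℝ) + 1 ≤ t0 := ht0.1
    have q2 : t0 < (m : ℝ) + 2 := ht0.2
    have q3 : (N : ℝ) ≤ t0 := by linarith only [q1, hm1']
    have q4 : t0 ≤ 2 * (N : ℝ) := by linarith only [q2, hm2']
    have ht0t : t ≤ t0 := by linarith only [q1, ht2]
    have q5 : t0 + (1 + ρ) ^ k ≤ t + H := by linarith only [q2, k3, ht1]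
    refine ⟨k, hk, ⟨k1, k2⟩, q3, q4, fun hcon => ?_⟩
    have hhH : (1 - e) * H ≤ (1 + ρ) ^ k := by
      refine le_trans ?_ k4
      rw [le_div_iff₀ (by linarith)]
      have h1 : 4 / e + 2 ≤ H := b2.trans hHN
      have h2 : 4 / e ≤ H := by linarith
      rw [div_le_iff₀ he0] at h2
      have h3 : 0 ≤ H := by
        have : 0 < 4 / e := by positivity
        linarith
      rw [hρ]
      nlinarith [mul_nonneg h3 (mul_nonneg he0.le he0.le)]
    have hhN : (t0 : ℝ) ^ (η / 2) ≤ (1 + ρ) ^ k := by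
      refine le_trans ?_ k1
      have h1 : t0 ≤ (N : ℝ) ^ (2 : ℝ) := by
        rw [Real.rpow_two]
        nlinarith only [q4, hN4]
      calc (t0 : ℝ) ^ (η / 2) ≤ ((N : ℝ) ^ (2 : ℝ)) ^ (η / 2) :=
            Real.rpow_le_rpow (by linarith only [q3, hN0]) h1 (by positivity)
        _ = (N : ℝ) ^ η := by
            rw [← Real.rpow_mul hN0.le]
            congr 1
            ring
    have hHη : t ^ (η / 2) ≤ H := by
      refine le_trans ?_ hH1
      exact Real.rpow_le_rpow_of_exponent_le ht0'.le (by linarith)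
    have hHpos : 0 < H := by
      have : 0 < 4 / e := by positivity
      linarith [b2.trans hHN]
    have n0 := (hT1 t0 (by linarith only [q3, hN3]) _ hhN (by linarith only [k2, q3, hN0])).1
    have n1 := (hT1 t (by linarith only [hNt, hN3]) H hHη (by linarith only [hH2, ht0'])).2
    have hfinal := transfer hmono hε hc0 he0 he2 hec ht0' ht0t q5 hHpos hhH n0 n1 hcon
    exact absurd hH3 (not_lt.2 hfinal)
  have hcard : (S.card : ℝ) ≤ K * (N : ℝ) ^ (1 - δ) := by
    have h1 : ((S.card : ℕ) : ENNReal) ≤ ENNReal.ofReal (K * (N : ℝ) ^ (1 - δ)) := by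
      calc ((S.card : ℕ) : ENNReal) = ∑ m ∈ S, volume (Set.Ico ((m : ℝ) + 1) (m + 2)) := by
            rw [Finset.sum_congr rfl (fun m _ => by
              rw [Real.volume_Ico, show (m : ℝ) + 2 - (m + 1) = 1 by ring, ENNReal.ofReal_one])]
            simp
        _ = volume (⋃ m ∈ S, Set.Ico ((m : ℝ) + 1) (m + 2)) := by
            rw [measure_biUnion_finset]
            · intro a _ b _ hab
              rw [Function.onFun, Set.disjoint_left]
              rintro x ⟨hx1, hx2⟩ ⟨hx3, hx4⟩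
              apply hab
              have h3 : (a : ℝ) < b + 1 := by linarith
              have h4 : (b : ℝ) < a + 1 := by linarith
              have h5 : a < b + 1 := by exact_mod_cast h3
              have h6 : b < a + 1 := by exact_mod_cast h4
              omega
            · intro m _
              exact measurableSet_Ico
        _ ≤ volume (⋃ k ∈ Finset.range K, B k) := by
            apply measure_mono
            exact Set.iUnion₂_subset hsub
        _ ≤ ∑ k ∈ Finset.range K, volume (B k) := measure_biUnion_finset_le _ _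
        _ ≤ ∑ _k ∈ Finset.range K, ENNReal.ofReal ((N : ℝ) ^ (1 - δ)) := Finset.sum_le_sum fun k _ => hBvol k
        _ = ENNReal.ofReal (K * (N : ℝ) ^ (1 - δ)) := by
            rw [Finset.sum_const, Finset.card_range, nsmul_eq_mul, ENNReal.ofReal_mul (by positivity),
              ENNReal.ofReal_natCast]
    rw [← ENNReal.ofReal_natCast] at h1
    exact (ENNReal.ofReal_le_ofReal_iff (by positivity)).1 h1
  have hfin : (((Finset.Ioc N (2 * N)).filter
      (fun m => m ∈ Bad F X (c - 2 * ε) η')).card : ℝ) ≤ S.card + 3 := by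
    have h1 : (Finset.Ioc N (2 * N)).filter (fun m => m ∈ Bad F X (c - 2 * ε) η') ⊆
        S ∪ Finset.Ioc (2 * N - 3) (2 * N) := by
      intro m hm
      rw [Finset.mem_filter, Finset.mem_Ioc] at hm
      rw [Finset.mem_union, hS, Finset.mem_filter, Finset.mem_Ioc, Finset.mem_Ioc]
      rcases le_or_gt m (2 * N - 3) with h2 | h2
      · exact Or.inl ⟨⟨hm.1.1, h2⟩, hm.2⟩
      · exact Or.inr ⟨h2, hm.1.2⟩
    have h2 := (Finset.card_le_card h1).trans (Finset.card_union_le _ _)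
    rw [Nat.card_Ioc] at h2
    have h3 : 2 * N - (2 * N - 3) ≤ 3 := by omega
    exact_mod_cast h2.trans (Nat.add_le_add_left h3 _)
  have h1 : (1 : ℝ) ≤ (N : ℝ) ^ (1 - δ) := Real.one_le_rpow (by linarith) (by linarith)
  calc (((Finset.Ioc N (2 * N)).filter
        (fun m => m ∈ Bad F X (c - 2 * ε) η')).card : ℝ) ≤ S.card + 3 := hfin
    _ ≤ (K + 3) * (N : ℝ) ^ (1 - δ) := by nlinarith [hcard]
    _ ≤ (N : ℝ) ^ (δ / 2) * (N : ℝ) ^ (1 - δ) := by
        apply mul_le_mul_of_nonneg_right _ (by positivity)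
        linarith
    _ = (N : ℝ) ^ (1 - δ / 2) := by
        rw [← Real.rpow_add hN0]
        congr 1
        ring

end Pool.Agent.Q34.ZS
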